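import Pool.Agent.Work.MP_b29d7f_ns.Interface3

/-!
# MP_b29d7f_nt, block COVB (helper83): covering a ball by smaller balls
-/

set_option autoImplicit false

open Finset

namespace Pool.NS

namespace COVB_

/-- the index of the grid cell -/
noncomputable def q {k : ℕ} (r : ℝ) (w : E k) : Fin k → ℤ := fun a => round (w a / r)

/-- the centre of the grid cell -/
noncomputable def ctr {k : ℕ} (r : ℝ) (n : Fin k → ℤ) : E k :=
  WithLp.toLp 2 fun a => (n a : ℝ) * r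

theorem norm_sub_ctr {k : ℕ} (hk : k = 1 ∨ k = 2) {r : ℝ} (hr : 0 < r) (w : E k) :
    ‖w - ctr r (q r w)‖ ≤ r := by
  rw [EuclideanSpace.norm_eq]
  apply Real.sqrt_le_iff.mpr
  refine ⟨hr.le, ?_⟩
  have h1 : ∀ a ∈ (univ : Finset (Fin k)), ‖(w - ctr r (q r w)) a‖ ^ 2 ≤ r ^ 2 / 4 := by
    intro a _
    have h2 : (w - ctr r (q r w)) a = w a - (round (w a / r) : ℝ) * r := rfl
    rw [h2, Real.norm_eq_abs, sq_abs]
    have h3 := abs_sub_round (w a / r)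
    have h4 : w a - (round (w a / r) : ℝ) * r = (w a / r - round (w a / r)) * r := by
      rw [sub_mul, div_mul_cancel₀ _ hr.ne']
    rw [h4, mul_pow]
    have h5 : (w a / r - round (w a / r)) ^ 2 ≤ (1 / 2) ^ 2 := by
      rw [← sq_abs]
      exact pow_le_pow_left₀ (abs_nonneg _) h3 2
    calc (w a / r - round (w a / r)) ^ 2 * r ^ 2 ≤ (1 / 2) ^ 2 * r ^ 2 :=
          mul_le_mul_of_nonneg_right h5 (sq_nonneg r)
      _ = r ^ 2 / 4 := by ring
  refine (sum_le_sum h1).trans ?_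
  rw [sum_const, nsmul_eq_mul, card_univ, Fintype.card_fin]
  have h6 : (k : ℝ) ≤ 2 := by
    rcases hk with rfl | rfl <;> norm_num
  have h7 : 0 ≤ r ^ 2 / 4 := by positivity
  nlinarith

theorem q_mem {k : ℕ} {r t : ℝ} (hr : 0 < r) {w : E k} (hw : ‖w‖ ≤ t * r) :
    q r w ∈ Fintype.piFinset fun _ : Fin k => Finset.Icc (-⌊t + 1 / 2⌋) ⌊t + 1 / 2⌋ := by
  rw [Fintype.mem_piFinset]
  intro a
  rw [mem_Icc]
  have h1 : |w a / r| ≤ t := by
    rw [abs_div, abs_of_pos hr, div_le_iff₀ hr]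
    refine le_trans ?_ hw
    rw [← Real.norm_eq_abs]
    exact PiLp.norm_apply_le w a
  have h2 := abs_sub_round (w a / r)
  have h3 : |((round (w a / r) : ℤ) : ℝ)| ≤ t + 1 / 2 := by
    have h4 : ((round (w a / r) : ℤ) : ℝ) = w a / r - (w a / r - round (w a / r)) := by ring
    rw [h4]
    exact (abs_sub _ _).trans (add_le_add h1 h2)
  rw [abs_le] at h3
  constructor
  · rw [neg_le, Int.le_floor]
    push_cast
    have h5 : q r w a = round (w a / r) := rfl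
    rw [h5]
    linarith
  · rw [Int.le_floor]
    exact h3.2

theorem card_box {k : ℕ} (hk : k = 1 ∨ k = 2) {t : ℝ} (ht : 1 ≤ t) :
    ((Fintype.piFinset fun _ : Fin k => Finset.Icc (-⌊t + 1 / 2⌋) ⌊t + 1 / 2⌋).card : ℝ)
      ≤ 25 * t ^ 2 := by
  rw [Fintype.card_piFinset, prod_const, card_univ, Fintype.card_fin, Int.card_Icc]
  have h0 : 0 ≤ ⌊t + 1 / 2⌋ := Int.floor_nonneg.mpr (by linarith)
  have h1 : (((⌊t + 1 / 2⌋ + 1 - -⌊t + 1 / 2⌋).toNat : ℕ) : ℝ) ≤ 4 * t := by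
    have h2 : (((⌊t + 1 / 2⌋ + 1 - -⌊t + 1 / 2⌋).toNat : ℕ) : ℤ) =
        ⌊t + 1 / 2⌋ + 1 - -⌊t + 1 / 2⌋ := Int.toNat_of_nonneg (by omega)
    have h3 : (((⌊t + 1 / 2⌋ + 1 - -⌊t + 1 / 2⌋).toNat : ℕ) : ℝ) =
        (⌊t + 1 / 2⌋ : ℝ) + 1 + (⌊t + 1 / 2⌋ : ℝ) := by
      have h4 := congrArg (fun z : ℤ => (z : ℝ)) h2
      push_cast at h4
      linarith
    rw [h3]
    have h5 := Int.floor_le (t + 1 / 2)
    linarith
  push_cast
  rcases hk with rfl | rfl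
  · rw [pow_one]
    nlinarith
  · calc (((⌊t + 1 / 2⌋ + 1 - -⌊t + 1 / 2⌋).toNat : ℕ) : ℝ) ^ 2 ≤ (4 * t) ^ 2 :=
          pow_le_pow_left₀ (Nat.cast_nonneg _) h1 2
      _ ≤ 25 * t ^ 2 := by nlinarith

end COVB_

theorem stmt_COVB : Stmt_COVB := by
  classical
  intro k hk ι s y r N t hr ht hN z
  have hN0 : 0 ≤ N := (Nat.cast_nonneg _).trans (hN 0)
  set Q := Fintype.piFinset fun _ : Fin k => Finset.Icc (-⌊t + 1 / 2⌋) ⌊t + 1 / 2⌋ with hQ
  have h1 : ∀ i ∈ s.filter (fun i => ‖y i - z‖ ≤ t * r), COVB_.q r (y i - z) ∈ Q := by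
    intro i hi
    exact COVB_.q_mem hr (mem_filter.mp hi).2
  have h2 := card_eq_sum_card_fiberwise (s := s.filter (fun i => ‖y i - z‖ ≤ t * r)) (t := Q)
    (f := fun i => COVB_.q r (y i - z)) (fun i hi => h1 i hi)
  rw [h2]
  push_cast
  have h3 : ∀ n ∈ Q, ((((s.filter (fun i => ‖y i - z‖ ≤ t * r)).filter
      (fun i => COVB_.q r (y i - z) = n)).card : ℕ) : ℝ) ≤ N := by
    intro n _
    refine le_trans ?_ (hN (z + COVB_.ctr r n))
    have h4 : (s.filter (fun i => ‖y i - z‖ ≤ t * r)).filter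
        (fun i => COVB_.q r (y i - z) = n) ⊆
        s.filter (fun i => ‖y i - (z + COVB_.ctr r n)‖ ≤ r) := by
      intro i hi
      rw [mem_filter, mem_filter] at hi
      rw [mem_filter]
      refine ⟨hi.1.1, ?_⟩
      rw [← sub_sub, ← hi.2]
      exact COVB_.norm_sub_ctr hk hr _
    exact_mod_cast card_le_card h4
  calc ∑ n ∈ Q, ((((s.filter (fun i => ‖y i - z‖ ≤ t * r)).filter
      (fun i => COVB_.q r (y i - z) = n)).card : ℕ) : ℝ) ≤ ∑ n ∈ Q, N := sum_le_sum h3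
    _ = (Q.card : ℝ) * N := by rw [sum_const, nsmul_eq_mul]
    _ ≤ 25 * t ^ 2 * N := mul_le_mul_of_nonneg_right (COVB_.card_box hk ht) hN0

end Pool.NS
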