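import Pool.Agent.Work.MP_b29d7f_ns.Interface3

/-!
# MP_b29d7f_nt, block FARP (helper83): far points contribute little
-/

set_option autoImplicit false

open Finset

namespace Pool.NS

namespace FARP_

theorem layer {r b d : ℝ} (hr : 0 < r) {J : ℕ} (hJ : (1 / 4 : ℝ) ^ J ≤ b) (hd : r < d) :
    r ^ 2 / d ^ 2 ≤ b + ∑ j ∈ range J, (1 / 4 : ℝ) ^ j * (if d ≤ 2 ^ (j + 1) * r then 1 else 0) := by
  have hd0 : 0 < d := hr.trans hd
  have key : ∀ j : ℕ, 2 ^ j * r < d → r ^ 2 / d ^ 2 ≤ (1 / 4 : ℝ) ^ j := by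
    intro j hj
    rw [div_le_iff₀ (by positivity)]
    have h1 : (2 ^ j * r) ^ 2 ≤ d ^ 2 := pow_le_pow_left₀ (by positivity) hj.le 2
    have h2 : ((1 / 4 : ℝ)) ^ j * (2 ^ j * r) ^ 2 = r ^ 2 := by
      rw [mul_pow, ← mul_assoc, ← pow_mul, mul_comm j 2, pow_mul, ← mul_pow]
      norm_num
    rw [← h2]
    exact mul_le_mul_of_nonneg_left h1 (by positivity)
  have hpos : ∀ j ∈ range J, 0 ≤ (1 / 4 : ℝ) ^ j * (if d ≤ 2 ^ (j + 1) * r then 1 else 0) := by
    intro j _
    split_ifs <;> positivity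
  by_cases hex : ∃ j, j < J ∧ d ≤ 2 ^ (j + 1) * r
  · classical
    have hj1 := (Nat.find_spec hex).1
    have hj2 := (Nat.find_spec hex).2
    have hj3 : ∀ i < Nat.find hex, ¬ (i < J ∧ d ≤ 2 ^ (i + 1) * r) := fun i hi =>
      Nat.find_min hex hi
    set j := Nat.find hex with hj
    have h1 : 2 ^ j * r < d := by
      rcases Nat.eq_zero_or_pos j with h0 | h0
      · rw [h0, pow_zero, one_mul]
        exact hd
      · obtain ⟨i, hi⟩ : ∃ i, j = i + 1 := ⟨j - 1, by omega⟩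
        rw [hi]
        by_contra h2
        exact hj3 i (by omega) ⟨by omega, not_lt.mp h2⟩
    have h2 := single_le_sum hpos (mem_range.mpr hj1)
    rw [if_pos hj2, mul_one] at h2
    have hb : 0 ≤ b := le_trans (by positivity) hJ
    have h3 := key j h1
    linarith
  · push Not at hex
    have h1 : 2 ^ J * r < d := by
      rcases Nat.eq_zero_or_pos J with h0 | h0
      · rw [h0, pow_zero, one_mul]
        exact hd
      · obtain ⟨i, hi⟩ : ∃ i, J = i + 1 := ⟨J - 1, by omega⟩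
        rw [hi]
        exact hex i (by omega)
    have h2 := sum_nonneg hpos
    have h3 := key J h1
    linarith

end FARP_

theorem stmt_FARP (hCOVB : Stmt_COVB) : Stmt_FARP := by
  classical
  refine ⟨101, by norm_num, ?_⟩
  intro k hk ι s y r b hr hb hb1 hN z
  have hlog : 0 ≤ Real.log (1 / b) := Real.log_nonneg (by rw [le_div_iff₀ hb]; linarith)
  set J := ⌈Real.log (1 / b)⌉₊ with hJdef
  have hJ1 : Real.log (1 / b) ≤ J := Nat.le_ceil _
  have hJ2 : (J : ℝ) ≤ Real.log (1 / b) + 1 := (Nat.ceil_lt_add_one hlog).le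
  have hJ : (1 / 4 : ℝ) ^ J ≤ b := by
    have h1 : 1 / b ≤ Real.exp J := by
      rw [← Real.exp_log (by positivity : 0 < 1 / b)]
      exact Real.exp_le_exp.mpr hJ1
    have h2 : Real.exp J ≤ 4 ^ J := by
      rw [← Real.exp_one_pow]
      exact pow_le_pow_left₀ (Real.exp_pos _).le (by linarith [Real.exp_one_lt_d9]) J
    have h3 : 1 / b ≤ 4 ^ J := h1.trans h2
    rw [div_le_iff₀ hb] at h3
    rw [one_div, inv_pow, inv_le_iff_one_le_mul₀ (by positivity), mul_comm]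
    exact h3
  have h1 : ∑ i ∈ s.filter (fun i => r < ‖y i - z‖), r ^ 2 / ‖y i - z‖ ^ 2 ≤
      ∑ i ∈ s.filter (fun i => r < ‖y i - z‖), (b + ∑ j ∈ range J, (1 / 4 : ℝ) ^ j *
        (if ‖y i - z‖ ≤ 2 ^ (j + 1) * r then 1 else 0)) := by
    apply sum_le_sum
    intro i hi
    exact FARP_.layer hr hJ (mem_filter.mp hi).2
  have h2 : ∑ i ∈ s.filter (fun i => r < ‖y i - z‖), (b + ∑ j ∈ range J, (1 / 4 : ℝ) ^ j *
        (if ‖y i - z‖ ≤ 2 ^ (j + 1) * r then 1 else 0)) ≤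
      ∑ i ∈ s, (b + ∑ j ∈ range J, (1 / 4 : ℝ) ^ j *
        (if ‖y i - z‖ ≤ 2 ^ (j + 1) * r then 1 else 0)) := by
    apply sum_le_sum_of_subset_of_nonneg (filter_subset _ _)
    intro i _ _
    apply add_nonneg hb.le
    apply sum_nonneg
    intro j _
    split_ifs <;> positivity
  have h3 : ∑ i ∈ s, (b + ∑ j ∈ range J, (1 / 4 : ℝ) ^ j *
        (if ‖y i - z‖ ≤ 2 ^ (j + 1) * r then 1 else 0)) =
      s.card * b + ∑ j ∈ range J, (1 / 4 : ℝ) ^ j *
        ((s.filter fun i => ‖y i - z‖ ≤ 2 ^ (j + 1) * r).card : ℝ) := by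
    rw [sum_add_distrib, sum_const, nsmul_eq_mul, sum_comm]
    congr 1
    apply sum_congr rfl
    intro j _
    rw [← mul_sum, card_filter]
    push_cast
    rfl
  have h4 : ∑ j ∈ range J, (1 / 4 : ℝ) ^ j *
        ((s.filter fun i => ‖y i - z‖ ≤ 2 ^ (j + 1) * r).card : ℝ) ≤
      ∑ j ∈ range J, 100 * (b * s.card) := by
    apply sum_le_sum
    intro j _
    have h5 := hCOVB k hk ι s y r (b * s.card) (2 ^ (j + 1)) hr (one_le_pow₀ (by norm_num)) hN z
    calc (1 / 4 : ℝ) ^ j * ((s.filter fun i => ‖y i - z‖ ≤ 2 ^ (j + 1) * r).card : ℝ)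
        ≤ (1 / 4 : ℝ) ^ j * (25 * (2 ^ (j + 1)) ^ 2 * (b * s.card)) :=
          mul_le_mul_of_nonneg_left h5 (by positivity)
      _ = 100 * (b * s.card) * ((1 / 4 : ℝ) ^ j * 4 ^ j) := by
          have h6 : ((2 : ℝ) ^ (j + 1)) ^ 2 = 4 * 4 ^ j := by
            rw [← pow_mul, mul_comm, pow_mul]
            norm_num
            ring
          rw [h6]
          ring
      _ = 100 * (b * s.card) := by
          rw [← mul_pow]
          norm_num
  rw [sum_const, card_range, nsmul_eq_mul] at h4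
  have h5 : (J : ℝ) * (100 * (b * s.card)) ≤ (Real.log (1 / b) + 1) * (100 * (b * s.card)) :=
    mul_le_mul_of_nonneg_right hJ2 (by positivity)
  have h6 : 0 ≤ Real.log (1 / b) * (b * s.card) := by positivity
  calc _ ≤ _ := h1
    _ ≤ _ := h2
    _ = _ := h3
    _ ≤ s.card * b + (Real.log (1 / b) + 1) * (100 * (b * s.card)) := by linarith
    _ ≤ _ := by nlinarith

end Pool.NS
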