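import Pool.Agent.Work.MP_b29d7f_ns.Interface3

/-!
# MP_b29d7f_nt, block GRO (helper83): potentials are continuous and tend to infinity
-/

set_option autoImplicit false

open Finset Filter Topology MeasureTheory

namespace Pool.NS

namespace GRO_

theorem modulus (C : ℝ) {k : ℕ} (x : E k) :
    Tendsto (fun y : E k => C * ‖y - x‖ * Real.log (1 / ‖y - x‖)) (𝓝 x) (𝓝 0) := by
  have h1 : (fun y : E k => C * ‖y - x‖ * Real.log (1 / ‖y - x‖)) =
      fun y : E k => -(C * (‖y - x‖ * Real.log ‖y - x‖)) := by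
    funext y
    rw [one_div, Real.log_inv]
    ring
  rw [h1]
  have h2 : Continuous fun y : E k => -(C * (‖y - x‖ * Real.log ‖y - x‖)) := by
    have h3 : Continuous fun y : E k => ‖y - x‖ := by fun_prop
    exact (continuous_const.mul (Real.continuous_mul_log.comp h3)).neg
  have h4 := h2.tendsto x
  simp only [sub_self, norm_zero, zero_mul, mul_zero, neg_zero] at h4
  exact h4

theorem cont (hU : Stmt_UPM) (k : ℕ) (f φ : E k → ℝ) (hk : k = 1 ∨ k = 2) (hD : Dens k f φ) :
    Continuous φ := by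
  rw [continuous_iff_continuousAt]
  intro x
  obtain ⟨C, hC, h1⟩ := hU k f φ hk hD (‖x‖ + 1)
  have h2 : ∀ᶠ y in 𝓝 x, ‖y - x‖ ≤ 1 / 2 := by
    have h3 : Tendsto (fun y : E k => ‖y - x‖) (𝓝 x) (𝓝 0) := by
      have h4 : Continuous fun y : E k => ‖y - x‖ := by fun_prop
      have h5 := h4.tendsto x
      simp only [sub_self, norm_zero] at h5
      exact h5
    exact (h3.eventually (gt_mem_nhds (by norm_num : (0 : ℝ) < 1 / 2))).mono fun y hy => hy.le
  have h3 : Tendsto (fun y => φ y - φ x) (𝓝 x) (𝓝 0) := by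
    apply squeeze_zero_norm' _ (modulus C x)
    filter_upwards [h2] with y hy
    rw [Real.norm_eq_abs]
    apply h1 y x _ (by linarith) hy
    have h4 : y = x + (y - x) := by abel
    have h5 : ‖y‖ ≤ ‖x‖ + ‖y - x‖ := by
      conv_lhs => rw [h4]
      exact norm_add_le _ _
    linarith
  have h4 := h3.add_const (φ x)
  simp only [sub_add_cancel, zero_add] at h4
  exact h4

theorem grow (k : ℕ) (f φ : E k → ℝ) (hk : k = 1 ∨ k = 2) (hD : Dens k f φ) (B : ℝ) :
    ∃ R₀ : ℝ, ∀ ξ, R₀ ≤ ‖ξ‖ → B ≤ φ ξ := by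
  obtain ⟨R₀, hR⟩ := hD.supp
  obtain ⟨F, hF⟩ := hD.bdd
  set B' := max B 0 with hB'
  set R₁ := max R₀ 0 with hR₁
  have hR1 : 0 ≤ R₁ := le_max_right _ _
  have hB0 : 0 ≤ B' := le_max_right _ _
  have hsupp : ∀ z, R₁ ≤ ‖z‖ → f z = 0 := fun z hz => hR z ((le_max_left _ _).trans hz)
  refine ⟨R₁ + Real.exp B', ?_⟩
  intro ξ hξ
  rw [hD.pot ξ]
  have hfi : Integrable f := by
    have h1 : IntegrableOn f (Metric.closedBall 0 R₁) :=
      Measure.integrableOn_of_bounded (M := F)
        (measure_closedBall_lt_top.ne) hD.meas.aestronglyMeasurable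
        (Eventually.of_forall fun z => by
          rw [Real.norm_eq_abs, abs_of_nonneg (hD.nonneg z)]
          exact hF z)
    rw [← integrableOn_univ]
    apply h1.of_forall_sdiff_eq_zero MeasurableSet.univ
    intro z hz
    apply hsupp
    have h2 : z ∉ Metric.closedBall (0 : E k) R₁ := hz.2
    rw [mem_closedBall_zero_iff, not_le] at h2
    exact h2.le
  have hlow : ∀ z, ‖z‖ ≤ R₁ → Real.exp B' ≤ ‖ξ - z‖ := by
    intro z hz
    have h1 := norm_sub_norm_le ξ z
    linarith
  have hlog : ∀ z, ‖z‖ ≤ R₁ → B' ≤ Real.log ‖ξ - z‖ ∧ Real.log ‖ξ - z‖ ≤ ‖ξ‖ + R₁ := by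
    intro z hz
    have h1 := hlow z hz
    have h2 : 0 < ‖ξ - z‖ := (Real.exp_pos _).trans_le h1
    refine ⟨(Real.le_log_iff_exp_le h2).mpr h1, ?_⟩
    have h3 := Real.log_le_sub_one_of_pos h2
    have h4 := norm_sub_le ξ z
    linarith
  have hgi : Integrable fun z => Real.log ‖ξ - z‖ * f z := by
    apply Integrable.mono' (hfi.const_mul (‖ξ‖ + R₁))
    · have h1 : Measurable fun z : E k => Real.log ‖ξ - z‖ := by fun_prop
      exact (h1.mul hD.meas).aestronglyMeasurable
    · apply Eventually.of_forall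
      intro z
      rcases le_or_gt ‖z‖ R₁ with hz | hz
      · obtain ⟨h1, h2⟩ := hlog z hz
        rw [Real.norm_eq_abs, abs_mul, abs_of_nonneg (hD.nonneg z),
          abs_of_nonneg (hB0.trans h1)]
        exact mul_le_mul_of_nonneg_right h2 (hD.nonneg z)
      · rw [hsupp z hz.le]
        simp
  have h1 : B' ≤ ∫ z, Real.log ‖ξ - z‖ * f z := by
    calc B' = ∫ z, B' * f z := by rw [integral_const_mul, hD.mass, mul_one]
      _ ≤ ∫ z, Real.log ‖ξ - z‖ * f z := by
        apply integral_mono (hfi.const_mul B') hgi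
        intro z
        show B' * f z ≤ Real.log ‖ξ - z‖ * f z
        rcases le_or_gt ‖z‖ R₁ with hz | hz
        · exact mul_le_mul_of_nonneg_right (hlog z hz).1 (hD.nonneg z)
        · rw [hsupp z hz.le]
          simp
  have hk1 : (1 : ℝ) ≤ k := by
    rcases hk with rfl | rfl <;> norm_num
  have h2 : B ≤ B' := le_max_left _ _
  nlinarith

end GRO_

theorem stmt_GRO (hU : Stmt_UPM) : Stmt_GRO := by
  intro k f φ hk hD
  exact ⟨GRO_.cont hU k f φ hk hD, GRO_.grow k f φ hk hD⟩

end Pool.NS
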