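import Pool.Agent.Work.MP_b29d7f_ns.Interface3

/-!
# MP_b29d7f_nt, block OS (helper83): the limit densities are one-sided
-/

set_option autoImplicit false

open Finset Filter Topology MeasureTheory

namespace Pool.NS

namespace OS_

theorem exists_uv {k : ℕ} (hk : 0 < k) (u : E k) (hu : ‖u‖ = 1) :
    ∃ U : E k ≃ₗᵢ[ℝ] E k, uv U ⟨0, hk⟩ = u := by
  have h1 : ‖u‖ = ‖(EuclideanSpace.single (⟨0, hk⟩ : Fin k) (1 : ℝ) : E k)‖ := by
    rw [hu]
    simp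
  refine ⟨Submodule.reflection
    (ℝ ∙ (u - (EuclideanSpace.single (⟨0, hk⟩ : Fin k) (1 : ℝ) : E k)))ᗮ, ?_⟩
  unfold uv
  rw [LinearIsometryEquiv.symm_apply_eq]
  exact (Submodule.reflection_sub h1).symm

end OS_

theorem stmt_OS (hA : Stmt_COMP2A) (hB : Stmt_COMP2B) (hC : Stmt_COMP2C) (hX : Stmt_APX)
    (hS : Stmt_SC) : Stmt_OS := by
  intro R _ P S v f φ hL u a hu
  have hk : P.e v = 1 ∨ P.e v = 2 := S.geo.e_eq v
  have hk0 : 0 < P.e v := by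
    rcases hk with h | h <;> omega
  obtain ⟨U, hU⟩ := OS_.exists_uv hk0 u hu
  have hT := hA R P S v f φ hL
  apply hS (P.e v) f φ hk hL.dens u a hu
  rw [← hU]
  apply hX (P.e v) f φ hk hL.dens U ⟨0, hk0⟩ a
  intro p F hF
  apply hC (P.e v) f φ S.c hk hL.dens S.hc U ⟨0, hk0⟩ a p F hF
  exact hB (P.e v) f φ S.c hk hL.dens hT U ⟨0, hk0⟩ a p F hF

end Pool.NS
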