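import Pool.Agent.Work.MP_b29d7f_ns_helper83.GAU

/-!
# MP_b29d7f_nt, block PDL (helper83): quantitative positive definiteness
-/

set_option autoImplicit false

open Finset Filter Topology MeasureTheory

namespace Pool.NS

namespace PDL_

open scoped Classical in
/-- `1_B - |B|/|s|` -/
noncomputable def ff {ι : Type} (s B : Finset ι) (i : ι) : ℝ :=
  (if i ∈ B then 1 else 0) - (B.card : ℝ) / s.card

theorem ff_sum {ι : Type} {s B : Finset ι} (hB : B ⊆ s) (hne : B.Nonempty) (g : ι → ℝ) :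
    ∑ i ∈ s, ff s B i * g i = ∑ i ∈ B, g i - (B.card : ℝ) / s.card * ∑ i ∈ s, g i := by
  classical
  unfold ff
  simp_rw [sub_mul]
  rw [sum_sub_distrib, ← mul_sum]
  congr 1
  simp_rw [ite_mul, one_mul, zero_mul]
  rw [sum_ite_mem, inter_eq_right.mpr hB]

theorem ff_sum_zero {ι : Type} {s B : Finset ι} (hB : B ⊆ s) (hne : B.Nonempty) :
    ∑ i ∈ s, ff s B i = 0 := by
  have h := ff_sum hB hne fun _ => 1
  simp only [mul_one, sum_const, nsmul_eq_mul] at h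
  rw [h]
  have h1 : (s.card : ℝ) ≠ 0 := by
    have := card_pos.mpr (hne.mono hB)
    positivity
  field_simp
  ring

open scoped Classical in
theorem F_lower {k : ℕ} {ι : Type} {s B : Finset ι} {y : ι → E k} {z₀ z : E k}
    {r₁ r₂ θ κ K τ : ℝ} (hB : B ⊆ s) (hne : B.Nonempty) (hθ : 0 < θ) (hτ : 0 < τ)
    (hκ : 8 * κ ^ 2 ≤ θ / 4) (hK : Real.exp (-(2 * K ^ 2)) ≤ θ / 4) (hK0 : 0 ≤ K)
    (h1 : τ * r₁ ≤ κ) (h2 : K ≤ τ * r₂) (h3 : τ * ‖z - z₀‖ ≤ κ)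
    (hb : ∀ b ∈ B, ‖y b - z₀‖ ≤ r₁)
    (hs : ((s.filter fun a => ‖y a - z‖ ≤ r₂).card : ℝ) ≤ (1 - θ) * s.card) :
    (B.card : ℝ) * θ / 2 ≤ ∑ i ∈ s, ff s B i * Real.exp (-(2 * τ ^ 2 * ‖y i - z‖ ^ 2)) := by
  rw [ff_sum hB hne]
  have hN : (0 : ℝ) < s.card := by exact_mod_cast card_pos.mpr (hne.mono hB)
  have hr2 : 0 ≤ r₂ := by
    by_contra h
    push Not at h
    nlinarith
  have e1 : (B.card : ℝ) * (1 - θ / 4) ≤
      ∑ i ∈ B, Real.exp (-(2 * τ ^ 2 * ‖y i - z‖ ^ 2)) := by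
    rw [← nsmul_eq_mul, ← sum_const]
    apply sum_le_sum
    intro i hi
    have h4 : ‖y i - z‖ ≤ ‖y i - z₀‖ + ‖z - z₀‖ := by
      have h5 : y i - z = (y i - z₀) - (z - z₀) := by abel
      rw [h5]
      exact norm_sub_le _ _
    have h5 : τ * ‖y i - z‖ ≤ 2 * κ := by
      have h6 := mul_le_mul_of_nonneg_left h4 hτ.le
      have h7 := mul_le_mul_of_nonneg_left (hb i hi) hτ.le
      linarith
    have h6 : (τ * ‖y i - z‖) ^ 2 ≤ (2 * κ) ^ 2 :=
      pow_le_pow_left₀ (by positivity) h5 2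
    have h7 : 2 * τ ^ 2 * ‖y i - z‖ ^ 2 ≤ θ / 4 := by
      have : 2 * τ ^ 2 * ‖y i - z‖ ^ 2 = 2 * (τ * ‖y i - z‖) ^ 2 := by ring
      rw [this]
      linarith
    have h8 := Real.add_one_le_exp (-(2 * τ ^ 2 * ‖y i - z‖ ^ 2))
    linarith
  have e2 : ∑ i ∈ s, Real.exp (-(2 * τ ^ 2 * ‖y i - z‖ ^ 2)) ≤
      (1 - θ + θ / 4) * s.card := by
    have h4 : ∀ i ∈ s, Real.exp (-(2 * τ ^ 2 * ‖y i - z‖ ^ 2)) ≤
        (if ‖y i - z‖ ≤ r₂ then 1 else 0) + θ / 4 := by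
      intro i _
      split_ifs with h5
      · have h6 : Real.exp (-(2 * τ ^ 2 * ‖y i - z‖ ^ 2)) ≤ 1 := by
          rw [Real.exp_le_one_iff]
          have : 0 ≤ 2 * τ ^ 2 * ‖y i - z‖ ^ 2 := by positivity
          linarith
        linarith
      · rw [zero_add]
        refine le_trans ?_ hK
        rw [Real.exp_le_exp, neg_le_neg_iff]
        push Not at h5
        have h6 : K ≤ τ * ‖y i - z‖ := h2.trans (mul_le_mul_of_nonneg_left h5.le hτ.le)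
        have h7 : K ^ 2 ≤ (τ * ‖y i - z‖) ^ 2 := pow_le_pow_left₀ hK0 h6 2
        have : 2 * τ ^ 2 * ‖y i - z‖ ^ 2 = 2 * (τ * ‖y i - z‖) ^ 2 := by ring
        rw [this]
        linarith
    refine (sum_le_sum h4).trans ?_
    rw [sum_add_distrib, sum_const, nsmul_eq_mul]
    have h5 : ∑ i ∈ s, (if ‖y i - z‖ ≤ r₂ then (1 : ℝ) else 0) =
        ((s.filter fun a => ‖y a - z‖ ≤ r₂).card : ℝ) := by
      rw [card_filter]
      push_cast
      rfl
    rw [h5]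
    linarith
  have e3 : (B.card : ℝ) / s.card * ∑ i ∈ s, Real.exp (-(2 * τ ^ 2 * ‖y i - z‖ ^ 2)) ≤
      (B.card : ℝ) / s.card * ((1 - θ + θ / 4) * s.card) :=
    mul_le_mul_of_nonneg_left e2 (by positivity)
  have e4 : (B.card : ℝ) / s.card * ((1 - θ + θ / 4) * s.card) =
      (B.card : ℝ) * (1 - θ + θ / 4) := by
    field_simp
  rw [e4] at e3
  linarith

/-- the constant of dimension `k` -/
noncomputable def cc (κ : ℝ) (k : ℕ) : ℝ :=
  (4 / Real.pi) ^ ((k : ℝ) / 2) * κ ^ k * (volume : Measure (E k)).real (Metric.ball 0 1)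

theorem cc_pos {κ : ℝ} (hκ : 0 < κ) (k : ℕ) : 0 < cc κ k := by
  unfold cc
  have h1 : 0 < (volume : Measure (E k)).real (Metric.ball 0 1) := by
    rw [measureReal_def]
    apply ENNReal.toReal_pos
    · exact (Metric.measure_ball_pos _ _ one_pos).ne'
    · exact measure_ball_lt_top.ne
  have h2 : 0 < (4 / Real.pi) ^ ((k : ℝ) / 2) :=
    Real.rpow_pos_of_pos (div_pos (by norm_num) Real.pi_pos) _
  positivity

open scoped Classical in
theorem G_lower {k : ℕ} {ι : Type} {s B : Finset ι} {y : ι → E k} {z₀ : E k}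
    {r₁ r₂ θ κ K τ : ℝ} (hB : B ⊆ s) (hne : B.Nonempty) (hθ : 0 < θ) (hτ : 0 < τ) (hκ0 : 0 < κ)
    (hκ : 8 * κ ^ 2 ≤ θ / 4) (hK : Real.exp (-(2 * K ^ 2)) ≤ θ / 4) (hK0 : 0 ≤ K)
    (h1 : τ * r₁ ≤ κ) (h2 : K ≤ τ * r₂)
    (hb : ∀ b ∈ B, ‖y b - z₀‖ ≤ r₁)
    (hs : ∀ z : E k, ((s.filter fun a => ‖y a - z‖ ≤ r₂).card : ℝ) ≤ (1 - θ) * s.card) :
    cc κ k * ((B.card : ℝ) * θ / 2) ^ 2 ≤
      ∑ i ∈ s, ∑ j ∈ s, ff s B i * ff s B j * Real.exp (-(τ ^ 2 * ‖y i - y j‖ ^ 2)) := by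
  have hσ : 0 < τ ^ 2 := by positivity
  rw [G1 s y (ff s B) hσ]
  have e1 : (volume : Measure (E k)).real (Metric.closedBall z₀ (κ / τ)) *
      ((B.card : ℝ) * θ / 2) ^ 2 ≤
      ∫ z : E k, (∑ i ∈ s, ff s B i * Real.exp (-(2 * τ ^ 2 * ‖y i - z‖ ^ 2))) ^ 2 := by
    refine le_trans ?_ (setIntegral_le_integral (s := Metric.closedBall z₀ (κ / τ))
      (sq_integrable s y (ff s B) hσ) (Eventually.of_forall fun z => sq_nonneg _))
    have e2 : (volume : Measure (E k)).real (Metric.closedBall z₀ (κ / τ)) *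
        ((B.card : ℝ) * θ / 2) ^ 2 =
        ∫ _z in Metric.closedBall z₀ (κ / τ), ((B.card : ℝ) * θ / 2) ^ 2 := by
      rw [setIntegral_const, smul_eq_mul]
    rw [e2]
    apply setIntegral_mono_on
    · exact integrableOn_const measure_closedBall_lt_top.ne
    · exact (sq_integrable s y (ff s B) hσ).integrableOn
    · exact Metric.isClosed_closedBall.measurableSet
    · intro z hz
      apply pow_le_pow_left₀ (by positivity)
      apply F_lower hB hne hθ hτ hκ hK hK0 h1 h2 _ hb (hs z)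
      have h3 : ‖z - z₀‖ ≤ κ / τ := by
        rw [← dist_eq_norm]
        exact hz
      rw [le_div_iff₀ hτ] at h3
      linarith
  have e3 : (4 * τ ^ 2 / Real.pi) ^ ((k : ℝ) / 2) *
      (volume : Measure (E k)).real (Metric.closedBall z₀ (κ / τ)) = cc κ k := by
    rw [Measure.addHaar_real_closedBall _ _ (by positivity), finrank_euclideanSpace_fin]
    unfold cc
    have h4 : (4 * τ ^ 2 / Real.pi) = 4 / Real.pi * τ ^ 2 := by ring
    rw [h4, Real.mul_rpow (by positivity) (by positivity)]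
    have h5 : (τ ^ 2) ^ ((k : ℝ) / 2) = τ ^ k := by
      rw [← Real.rpow_natCast τ 2, ← Real.rpow_mul hτ.le, ← Real.rpow_natCast τ k]
      congr 1
      push_cast
      ring
    rw [h5, div_pow]
    have h6 : τ ^ k ≠ 0 := by positivity
    field_simp
  calc cc κ k * ((B.card : ℝ) * θ / 2) ^ 2
      = (4 * τ ^ 2 / Real.pi) ^ ((k : ℝ) / 2) *
        ((volume : Measure (E k)).real (Metric.closedBall z₀ (κ / τ)) *
          ((B.card : ℝ) * θ / 2) ^ 2) := by rw [← e3]; ring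
    _ ≤ _ := mul_le_mul_of_nonneg_left e1 (Real.rpow_nonneg (by positivity) _)

open scoped Classical in
theorem main {k : ℕ} {ι : Type} {s B : Finset ι} {y : ι → E k} {z₀ : E k}
    {ρ r₁ r₂ θ κ K : ℝ} (hB : B ⊆ s) (hne : B.Nonempty) (hθ : 0 < θ) (hκ0 : 0 < κ)
    (hκ : 8 * κ ^ 2 ≤ θ / 4) (hK : Real.exp (-(2 * K ^ 2)) ≤ θ / 4) (hK0 : 0 < K)
    (hρ : 0 < ρ) (hρ1 : ρ ≤ r₁) (hr₂ : 0 < r₂)
    (hb : ∀ b ∈ B, ‖y b - z₀‖ ≤ r₁)
    (hs : ∀ z : E k, ((s.filter fun a => ‖y a - z‖ ≤ r₂).card : ℝ) ≤ (1 - θ) * s.card)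
    (hab : K ^ 2 / r₂ ^ 2 ≤ κ ^ 2 / r₁ ^ 2) :
    Real.exp (-κ ^ 2) * (cc κ k * ((B.card : ℝ) * θ / 2) ^ 2) *
        Real.log (κ ^ 2 / r₁ ^ 2 / (K ^ 2 / r₂ ^ 2)) ≤
      -∑ i ∈ s, ∑ j ∈ s, ff s B i * ff s B j * Real.log (‖y i - y j‖ ^ 2 + ρ ^ 2) := by
  have hr₁ : 0 < r₁ := hρ.trans_le hρ1
  have ha0 : 0 < K ^ 2 / r₂ ^ 2 := by positivity
  have hb0 : 0 < κ ^ 2 / r₁ ^ 2 := by positivity
  refine le_trans ?_ (G2 s y (ff s B) hρ (ff_sum_zero hB hne) ha0 hab)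
  rw [← integral_inv_of_pos ha0 hb0, ← intervalIntegral.integral_const_mul]
  apply intervalIntegral.integral_mono_on hab
  · apply ContinuousOn.intervalIntegrable
    apply ContinuousOn.mul continuousOn_const
    apply continuousOn_inv₀.mono
    intro x hx
    exact ((lt_min ha0 hb0).trans_le hx.1).ne'
  · exact H_int s y (ff s B) ρ ha0 hb0
  · intro σ hσ
    have hσ0 : 0 < σ := ha0.trans_le hσ.1
    unfold H
    rw [div_eq_mul_inv]
    apply mul_le_mul_of_nonneg_right _ (inv_nonneg.mpr hσ0.le)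
    have hτ : 0 < √σ := Real.sqrt_pos.mpr hσ0
    have hτ2 : √σ ^ 2 = σ := Real.sq_sqrt hσ0.le
    have t1 : √σ * r₁ ≤ κ := by
      rw [← le_div_iff₀ hr₁]
      apply Real.sqrt_le_iff.mpr
      refine ⟨by positivity, ?_⟩
      rw [div_pow]
      exact hσ.2
    have t2 : K ≤ √σ * r₂ := by
      rw [← div_le_iff₀ hr₂]
      apply Real.le_sqrt_of_sq_le
      rw [div_pow]
      exact hσ.1
    have t3 := G_lower hB hne hθ hτ hκ0 hκ hK hK0.le t1 t2 hb hs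
    rw [hτ2] at t3
    have t4 : Real.exp (-κ ^ 2) ≤ Real.exp (-(σ * ρ ^ 2)) := by
      rw [Real.exp_le_exp, neg_le_neg_iff]
      have t5 : √σ * ρ ≤ κ := (mul_le_mul_of_nonneg_left hρ1 hτ.le).trans t1
      have t6 : (√σ * ρ) ^ 2 ≤ κ ^ 2 := pow_le_pow_left₀ (by positivity) t5 2
      rw [mul_pow, hτ2] at t6
      exact t6
    exact mul_le_mul t4 t3 (mul_nonneg (cc_pos hκ0 k).le (sq_nonneg _)) (Real.exp_pos _).le

end PDL_

theorem stmt_PDL (_h : Stmt_PDG) : Stmt_PDL := by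
  classical
  intro θ hθ hθ2
  set κ := √(θ / 32) with hκdef
  have hκ0 : 0 < κ := Real.sqrt_pos.mpr (by positivity)
  have hκ2 : κ ^ 2 = θ / 32 := Real.sq_sqrt (by positivity)
  have hκ : 8 * κ ^ 2 ≤ θ / 4 := by
    rw [hκ2]
    linarith
  have hκ1 : κ ≤ 1 := by
    apply Real.sqrt_le_iff.mpr
    constructor
    · norm_num
    · linarith
  set K := 1 + Real.log (4 / θ) with hKdef
  have hlog : 0 ≤ Real.log (4 / θ) := by
    apply Real.log_nonneg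
    rw [le_div_iff₀ hθ]
    linarith
  have hK1 : 1 ≤ K := by linarith
  have hK0 : 0 < K := by linarith
  have hK : Real.exp (-(2 * K ^ 2)) ≤ θ / 4 := by
    have h1 : θ / 4 = Real.exp (-Real.log (4 / θ)) := by
      rw [Real.exp_neg, Real.exp_log (by positivity), inv_div]
    rw [h1, Real.exp_le_exp, neg_le_neg_iff]
    have h2 : K ≤ K ^ 2 := by nlinarith
    linarith
  have hc1 := PDL_.cc_pos hκ0 1
  have hc2 := PDL_.cc_pos hκ0 2
  set c0 := min (PDL_.cc κ 1) (PDL_.cc κ 2) with hc0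
  have hc0p : 0 < c0 := lt_min hc1 hc2
  refine ⟨Real.exp (-κ ^ 2) * c0 * (θ ^ 2 / 2), Real.log (K / κ), by positivity, ?_, ?_⟩
  · apply Real.log_nonneg
    rw [le_div_iff₀ hκ0]
    linarith
  intro k hk ι s B y z₀ ρ r₁ r₂ hB hne hρ hρ1 hr₂ hb hs
  have hr₁ : 0 < r₁ := hρ.trans_le hρ1
  have hck : c0 ≤ PDL_.cc κ k := by
    rcases hk with rfl | rfl
    · exact min_le_left _ _
    · exact min_le_right _ _
  have hlogeq : Real.log (κ ^ 2 / r₁ ^ 2 / (K ^ 2 / r₂ ^ 2)) =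
      2 * (Real.log (r₂ / r₁) - Real.log (K / κ)) := by
    have h1 : κ ^ 2 / r₁ ^ 2 / (K ^ 2 / r₂ ^ 2) = ((r₂ / r₁) / (K / κ)) ^ 2 := by
      field_simp
    rw [h1, Real.log_pow, Real.log_div (by positivity) (by positivity)]
    push_cast
    ring
  have hgoal : -∑ i ∈ s, ∑ j ∈ s, ((if i ∈ B then 1 else 0) - (B.card : ℝ) / s.card)
      * ((if j ∈ B then 1 else 0) - (B.card : ℝ) / s.card)
      * Real.log (‖y i - y j‖ ^ 2 + ρ ^ 2) =
      -∑ i ∈ s, ∑ j ∈ s, PDL_.ff s B i * PDL_.ff s B j *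
        Real.log (‖y i - y j‖ ^ 2 + ρ ^ 2) := by
    unfold PDL_.ff
    rfl
  refine le_trans ?_ (le_of_eq hgoal.symm)
  rcases le_or_gt (K ^ 2 / r₂ ^ 2) (κ ^ 2 / r₁ ^ 2) with hab | hab
  · have h1 := PDL_.main hB hne hθ hκ0 hκ hK hK0 hρ hρ1 hr₂ hb hs hab
    refine le_trans ?_ h1
    have hlog0 : 0 ≤ Real.log (κ ^ 2 / r₁ ^ 2 / (K ^ 2 / r₂ ^ 2)) := by
      apply Real.log_nonneg
      rw [le_div_iff₀ (by positivity)]
      linarith
    rw [hlogeq] at hlog0 ⊢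
    have h2 : Real.exp (-κ ^ 2) * c0 * (θ ^ 2 / 2) * (B.card : ℝ) ^ 2 *
        (Real.log (r₂ / r₁) - Real.log (K / κ)) =
        Real.exp (-κ ^ 2) * (c0 * ((B.card : ℝ) * θ / 2) ^ 2) *
          (2 * (Real.log (r₂ / r₁) - Real.log (K / κ))) := by ring
    rw [h2]
    apply mul_le_mul_of_nonneg_right _ hlog0
    apply mul_le_mul_of_nonneg_left _ (Real.exp_pos _).le
    exact mul_le_mul_of_nonneg_right hck (sq_nonneg _)
  · have h1 := PDL_.pdg s y (PDL_.ff s B) hρ (PDL_.ff_sum_zero hB hne)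
    have h2 : Real.log (κ ^ 2 / r₁ ^ 2 / (K ^ 2 / r₂ ^ 2)) ≤ 0 := by
      apply Real.log_nonpos (by positivity)
      rw [div_le_one (by positivity)]
      exact hab.le
    rw [hlogeq] at h2
    have h3 : Real.exp (-κ ^ 2) * c0 * (θ ^ 2 / 2) * (B.card : ℝ) ^ 2 *
        (Real.log (r₂ / r₁) - Real.log (K / κ)) ≤ 0 := by
      apply mul_nonpos_of_nonneg_of_nonpos
      · positivity
      · linarith
    linarith

end Pool.NS
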