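import Pool.Agent.Work.MP_b29d7f_ns.Interface3

/-!
# MP_b29d7f_nt, block XC (helper83): almost minimal points of the potential of the finite places
-/

set_option autoImplicit false

open Finset Filter Topology MeasureTheory

namespace Pool.NS

namespace XC_

variable {R : Type} [CommRing R] {P : Data R} (S : Sq P)

/-- the excess at the finite places -/
noncomputable def fx (l : ℕ) (x : R) : ℝ :=
  ∑ t, P.lq t * ((max (P.lev t x - S.j l t) 0 : ℤ) : ℝ)

theorem fx_nonneg (l : ℕ) (x : R) : 0 ≤ fx S l x := by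
  unfold fx
  apply sum_nonneg
  intro t _
  exact mul_nonneg (S.good.lq_pos t).le (by exact_mod_cast le_max_right _ _)

include S in
theorem lqs_nonneg : 0 ≤ ∑ t, P.lq t := sum_nonneg fun t _ => (S.good.lq_pos t).le

/-- lower bounds for `pT` from LB -/
theorem low {C : ℝ} {l : ℕ}
    (h2 : ∀ (t : P.T) (x : R), x ≠ 0 → 3 / 4 * ((max (P.lev t x - S.j l t) 0 : ℤ) : ℝ) - C ≤
      (S.n l)⁻¹ * ∑ b ∈ S.A l,
        ((P.cap t (S.j l t - P.Mx (S.A l).card) (x - b) - S.j l t : ℤ) : ℝ))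
    (x : R) (hx : x ≠ 0) : 3 / 4 * fx S l x - C * ∑ t, P.lq t ≤ S.pT l x := by
  unfold fx Sq.pT
  rw [mul_sum, mul_sum, ← sum_sub_distrib]
  apply sum_le_sum
  intro t _
  have h3 := mul_le_mul_of_nonneg_left (h2 t x hx) (S.good.lq_pos t).le
  linarith

theorem low0 {C : ℝ} {l : ℕ}
    (h3 : ∀ t : P.T, -C ≤
      (S.n l)⁻¹ * ∑ b ∈ S.A l,
        ((P.cap t (S.j l t - P.Mx (S.A l).card) (0 - b) - S.j l t : ℤ) : ℝ)) :
    -(C * ∑ t, P.lq t) ≤ S.pT l 0 := by
  unfold Sq.pT
  rw [mul_sum, ← sum_neg_distrib]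
  apply sum_le_sum
  intro t _
  have h4 := mul_le_mul_of_nonneg_left (h3 t) (S.good.lq_pos t).le
  linarith

theorem up0 {C : ℝ} {l : ℕ}
    (h3 : ∀ t : P.T,
      (S.n l)⁻¹ * ∑ b ∈ S.A l,
        ((P.cap t (S.j l t - P.Mx (S.A l).card) (0 - b) - S.j l t : ℤ) : ℝ) ≤ C) :
    S.pT l 0 ≤ C * ∑ t, P.lq t := by
  unfold Sq.pT
  rw [mul_sum]
  apply sum_le_sum
  intro t _
  have h4 := mul_le_mul_of_nonneg_left (h3 t) (S.good.lq_pos t).le
  linarith

open scoped Classical in
/-- the excess of a point near `x` -/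
theorem ex_le {l r : ℕ} {x b : R} (hb : ∀ v, ‖S.X l b v - 0‖ ≤ 1)
    (hn : ∀ t, P.NearT t (S.j l t - r) b x) :
    S.ex l b ≤ if x = 0 then 0 else fx S l x := by
  classical
  have h1 : ∑ v, (P.e v : ℝ) * Real.posLog (‖P.em b v‖ / S.s l v) = 0 := by
    apply sum_eq_zero
    intro v _
    have h2 := hb v
    rw [sub_zero, S.norm_X] at h2
    have h3 : Real.posLog (‖P.em b v‖ / S.s l v) = 0 := by
      rw [Real.posLog_eq_zero_iff, abs_of_nonneg (div_nonneg (norm_nonneg _) (S.s_pos l v).le)]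
      exact h2
    rw [h3, mul_zero]
  unfold Sq.ex Data.exc
  rw [h1, zero_add]
  by_cases hb0 : b = 0
  · have h2 : ∑ t, P.lq t * (if b = 0 then 0 else ((max (P.lev t b - S.j l t) 0 : ℤ) : ℝ)) = 0 := by
      apply sum_eq_zero
      intro t _
      rw [if_pos hb0, mul_zero]
    rw [h2]
    split_ifs
    · exact le_rfl
    · exact fx_nonneg S l x
  have key : ∀ t, P.lev t b ≤ (if x = 0 then S.j l t else max (P.lev t x) (S.j l t)) := by
    intro t
    have hr : S.j l t - r ≤ S.j l t := by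
      have : (0 : ℤ) ≤ r := Int.natCast_nonneg r
      omega
    rcases hn t with h3 | h3
    · rw [h3] at hb0 ⊢
      rw [if_neg hb0]
      exact le_max_left _ _
    · by_cases hx : x = 0
      · rw [if_pos hx]
        rw [hx, sub_zero] at h3
        exact h3.trans hr
      · rw [if_neg hx]
        by_cases hbx : b = x
        · rw [hbx]
          exact le_max_left _ _
        have h4 := S.good.lev_add t (b - x) x (sub_ne_zero.mpr hbx) hx
          (by rw [sub_add_cancel]; exact hb0)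
        rw [sub_add_cancel] at h4
        exact h4.trans (max_le ((h3.trans hr).trans (le_max_right _ _)) (le_max_left _ _))
  by_cases hx : x = 0
  · rw [if_pos hx]
    apply le_of_eq
    apply sum_eq_zero
    intro t _
    have h2 := key t
    rw [if_pos hx] at h2
    have h3 : max (P.lev t b - S.j l t) 0 = 0 := max_eq_right (by omega)
    rw [if_neg hb0, h3]
    simp
  · rw [if_neg hx]
    unfold fx
    apply sum_le_sum
    intro t _
    rw [if_neg hb0]
    apply mul_le_mul_of_nonneg_left _ (S.good.lq_pos t).le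
    have h2 := key t
    rw [if_neg hx] at h2
    have h3 : max (P.lev t b - S.j l t) 0 ≤ max (P.lev t x - S.j l t) 0 := by
      rcases le_max_iff.mp h2 with h4 | h4
      · exact max_le_max (by omega) le_rfl
      · exact max_le ((by omega : P.lev t b - S.j l t ≤ 0).trans (le_max_right _ _))
          (le_max_right _ _)
    exact_mod_cast h3

end XC_

theorem stmt_XC (hLB : Stmt_LB) (hUB : Stmt_UB) (hTC : Stmt_TCON) (hPLC : Stmt_PLC) : Stmt_XC := by
  intro R _ P S
  obtain ⟨C1, hC1, h1⟩ := hLB R P S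
  obtain ⟨C2, hC2, h2⟩ := hUB R P S
  obtain ⟨C3, c3, hC3, hc3, h3⟩ := hTC R P S
  have hq := XC_.lqs_nonneg S
  set Λ := ∑ t, P.lq t with hΛ
  refine ⟨4 / 3 * (C2 * Λ + 1 + C1 * Λ), ?_⟩
  have hW : 0 ≤ 4 / 3 * (C2 * Λ + 1 + C1 * Λ) := by positivity
  intro ε hε
  -- choice of `r`
  obtain ⟨r, hr⟩ : ∃ r : ℕ, C3 * Real.exp (-(c3 * r)) ≤ ε / 2 := by
    have h4 : Tendsto (fun r : ℕ => C3 * Real.exp (-(c3 * r))) atTop (𝓝 (C3 * 0)) := by
      apply Tendsto.const_mul
      apply Real.tendsto_exp_atBot.comp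
      apply tendsto_neg_atTop_atBot.comp
      exact Tendsto.const_mul_atTop hc3 tendsto_natCast_atTop_atTop
    rw [mul_zero] at h4
    obtain ⟨r, hr⟩ := (h4.eventually (gt_mem_nhds (half_pos hε))).exists
    exact ⟨r, hr.le⟩
  obtain ⟨c4, hc4, h4⟩ := hPLC R P S 1 r one_pos
  filter_upwards [h2, h4, S.eventually_Mx r] with l h2l h4l hMx
  have hlow : ∀ x : R, -(C1 * Λ) ≤ S.pT l x := by
    intro x
    by_cases hx : x = 0
    · rw [hx]
      exact XC_.low0 S (h1 l _ le_rfl).2.2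
    · have h5 := XC_.low S (h1 l _ le_rfl).2.1 x hx
      have h6 := XC_.fx_nonneg S l x
      linarith
  have hbdd : BddBelow (Set.range (S.pT l)) := by
    refine ⟨-(C1 * Λ), ?_⟩
    rintro _ ⟨x, rfl⟩
    exact hlow x
  refine ⟨hbdd, ?_⟩
  obtain ⟨x, hx⟩ := exists_lt_of_ciInf_lt
    (show (⨅ x, S.pT l x) < (⨅ x, S.pT l x) + min (ε / 2) 1 by
      have : 0 < min (ε / 2) 1 := lt_min (half_pos hε) one_pos
      linarith)
  have hx1 : S.pT l x ≤ (⨅ x, S.pT l x) + ε / 2 := by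
    have := min_le_left (ε / 2) (1 : ℝ)
    linarith
  have hx2 : S.pT l x ≤ C2 * Λ + 1 := by
    have h5 := min_le_right (ε / 2) (1 : ℝ)
    have h6 := ciInf_le hbdd 0
    have h7 := XC_.up0 S (h2l (P.Mx (S.A l).card)).2.2
    linarith
  obtain ⟨B, ⟨b, hb⟩, -, hB⟩ := h4l (fun _ => 0) x
  obtain ⟨hb1, hb2⟩ := hB b hb
  refine ⟨b, ?_, ?_⟩
  · refine (XC_.ex_le S hb1 hb2).trans ?_
    split_ifs with hx0
    · exact hW
    · have h5 := XC_.low S (h1 l _ le_rfl).2.1 x hx0
      linarith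
  · have h5 := h3 r l hMx b x hb2
    have h6 := (abs_le.mp h5).2
    linarith

end Pool.NS
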