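import Pool.Agent.Work.MP_b29d7f_ns.Interface3

/-!
# MP_b29d7f_nt, Gaussian kernels and Frullani integrals for PDG and PDL (helper83)
-/

set_option autoImplicit false

open Finset Filter Topology MeasureTheory

namespace Pool.NS

namespace PDL_

theorem gauss_integrable (k : ℕ) {b : ℝ} (hb : 0 < b) :
    Integrable fun v : E k => Real.exp (-b * ‖v‖ ^ 2) := by
  by_contra h
  have h1 := GaussianFourier.integral_rexp_neg_mul_sq_norm (V := E k) hb
  rw [integral_undef h] at h1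
  have h2 : 0 < (Real.pi / b) ^ ((Module.finrank ℝ (E k) : ℝ) / 2) :=
    Real.rpow_pos_of_pos (div_pos Real.pi_pos hb) _
  rw [← h1] at h2
  exact lt_irrefl _ h2

/-- the product of two Gaussians -/
theorem prod_eq {k : ℕ} (x y z : E k) (σ : ℝ) :
    Real.exp (-(2 * σ * ‖x - z‖ ^ 2)) * Real.exp (-(2 * σ * ‖y - z‖ ^ 2)) =
      Real.exp (-(4 * σ) * ‖z - (1 / 2 : ℝ) • (x + y)‖ ^ 2) *
        Real.exp (-(σ * ‖x - y‖ ^ 2)) := by
  rw [← Real.exp_add, ← Real.exp_add]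
  congr 1
  have h1 := parallelogram_law_with_norm ℝ (x - z) (y - z)
  have h2 : (x - z) + (y - z) = (-2 : ℝ) • (z - (1 / 2 : ℝ) • (x + y)) := by
    rw [smul_sub, smul_smul]
    norm_num
    rw [two_smul]
    abel
  have h3 : (x - z) - (y - z) = x - y := by abel
  rw [h2, h3, norm_smul] at h1
  have h4 : ‖(-2 : ℝ)‖ = 2 := by norm_num
  rw [h4] at h1
  linear_combination σ * h1

theorem pair_integrable {k : ℕ} (x y : E k) {σ : ℝ} (hσ : 0 < σ) :
    Integrable fun z : E k =>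
      Real.exp (-(2 * σ * ‖x - z‖ ^ 2)) * Real.exp (-(2 * σ * ‖y - z‖ ^ 2)) := by
  simp_rw [prod_eq]
  apply Integrable.mul_const
  exact (gauss_integrable k (by positivity : (0 : ℝ) < 4 * σ)).comp_sub_right _

theorem pair_integral {k : ℕ} (x y : E k) {σ : ℝ} (hσ : 0 < σ) :
    ∫ z : E k, Real.exp (-(2 * σ * ‖x - z‖ ^ 2)) * Real.exp (-(2 * σ * ‖y - z‖ ^ 2)) =
      (Real.pi / (4 * σ)) ^ ((k : ℝ) / 2) * Real.exp (-(σ * ‖x - y‖ ^ 2)) := by
  simp_rw [prod_eq]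
  rw [integral_mul_const,
    integral_sub_right_eq_self (fun v : E k => Real.exp (-(4 * σ) * ‖v‖ ^ 2)),
    GaussianFourier.integral_rexp_neg_mul_sq_norm (by positivity : (0 : ℝ) < 4 * σ),
    finrank_euclideanSpace_fin]

theorem sq_eq {k : ℕ} {ι : Type} (s : Finset ι) (y : ι → E k) (f : ι → ℝ) (σ : ℝ) (z : E k) :
    (∑ i ∈ s, f i * Real.exp (-(2 * σ * ‖y i - z‖ ^ 2))) ^ 2 =
      ∑ i ∈ s, ∑ j ∈ s, f i * f j *
        (Real.exp (-(2 * σ * ‖y i - z‖ ^ 2)) * Real.exp (-(2 * σ * ‖y j - z‖ ^ 2))) := by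
  rw [sq, sum_mul_sum]
  exact sum_congr rfl fun i _ => sum_congr rfl fun j _ => by ring

theorem sq_integrable {k : ℕ} {ι : Type} (s : Finset ι) (y : ι → E k) (f : ι → ℝ) {σ : ℝ}
    (hσ : 0 < σ) :
    Integrable fun z : E k => (∑ i ∈ s, f i * Real.exp (-(2 * σ * ‖y i - z‖ ^ 2))) ^ 2 := by
  simp_rw [sq_eq]
  apply integrable_finsetSum
  intro i _
  apply integrable_finsetSum
  intro j _
  exact (pair_integrable (y i) (y j) hσ).const_mul _

/-- (G1) -/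
theorem G1 {k : ℕ} {ι : Type} (s : Finset ι) (y : ι → E k) (f : ι → ℝ) {σ : ℝ} (hσ : 0 < σ) :
    ∑ i ∈ s, ∑ j ∈ s, f i * f j * Real.exp (-(σ * ‖y i - y j‖ ^ 2)) =
      (4 * σ / Real.pi) ^ ((k : ℝ) / 2) *
        ∫ z : E k, (∑ i ∈ s, f i * Real.exp (-(2 * σ * ‖y i - z‖ ^ 2))) ^ 2 := by
  have hc : (4 * σ / Real.pi) ^ ((k : ℝ) / 2) * (Real.pi / (4 * σ)) ^ ((k : ℝ) / 2) = 1 := by
    rw [← Real.mul_rpow (by positivity) (by positivity)]
    have h1 : 4 * σ / Real.pi * (Real.pi / (4 * σ)) = 1 := by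
      have := Real.pi_pos.ne'
      field_simp
    rw [h1, Real.one_rpow]
  simp_rw [sq_eq]
  rw [integral_finsetSum _ fun i _ => integrable_finsetSum _ fun j _ =>
    (pair_integrable (y i) (y j) hσ).const_mul _, mul_sum]
  apply sum_congr rfl
  intro i _
  rw [integral_finsetSum _ fun j _ => (pair_integrable (y i) (y j) hσ).const_mul _, mul_sum]
  apply sum_congr rfl
  intro j _
  rw [integral_const_mul, pair_integral _ _ hσ]
  linear_combination (-(f i * f j * Real.exp (-(σ * ‖y i - y j‖ ^ 2)))) * hc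

theorem G_nonneg {k : ℕ} {ι : Type} (s : Finset ι) (y : ι → E k) (f : ι → ℝ) {σ : ℝ}
    (hσ : 0 < σ) :
    0 ≤ ∑ i ∈ s, ∑ j ∈ s, f i * f j * Real.exp (-(σ * ‖y i - y j‖ ^ 2)) := by
  rw [G1 s y f hσ]
  apply mul_nonneg (Real.rpow_nonneg (by positivity) _)
  exact integral_nonneg fun z => sq_nonneg _

/-- the integrand of (G2) -/
noncomputable def H {k : ℕ} {ι : Type} (s : Finset ι) (y : ι → E k) (f : ι → ℝ) (ρ σ : ℝ) : ℝ :=
  Real.exp (-(σ * ρ ^ 2)) *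
    (∑ i ∈ s, ∑ j ∈ s, f i * f j * Real.exp (-(σ * ‖y i - y j‖ ^ 2))) / σ

theorem H_nonneg {k : ℕ} {ι : Type} (s : Finset ι) (y : ι → E k) (f : ι → ℝ) (ρ : ℝ) {σ : ℝ}
    (hσ : 0 < σ) : 0 ≤ H s y f ρ σ :=
  div_nonneg (mul_nonneg (Real.exp_pos _).le (G_nonneg s y f hσ)) hσ.le

theorem H_cont {k : ℕ} {ι : Type} (s : Finset ι) (y : ι → E k) (f : ι → ℝ) (ρ : ℝ) :
    ContinuousOn (H s y f ρ) (Set.Ioi 0) := by
  unfold H
  apply ContinuousOn.div
  · apply Continuous.continuousOn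
    fun_prop
  · exact continuousOn_id
  · intro σ hσ
    exact (Set.mem_Ioi.mp hσ).ne'

theorem H_int {k : ℕ} {ι : Type} (s : Finset ι) (y : ι → E k) (f : ι → ℝ) (ρ : ℝ) {a b : ℝ}
    (ha : 0 < a) (hb : 0 < b) : IntervalIntegrable (H s y f ρ) volume a b := by
  apply ContinuousOn.intervalIntegrable
  apply (H_cont s y f ρ).mono
  intro x hx
  exact (lt_min ha hb).trans_le hx.1

/-- `H` in terms of the Frullani kernels -/
theorem H_eq {k : ℕ} {ι : Type} (s : Finset ι) (y : ι → E k) (f : ι → ℝ) (ρ σ : ℝ)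
    (hf : ∑ i ∈ s, f i = 0) :
    H s y f ρ σ = ∑ i ∈ s, ∑ j ∈ s, f i * f j *
      (σ⁻¹ • (Real.exp (-((‖y i - y j‖ ^ 2 + ρ ^ 2) * σ)) - Real.exp (-(1 * σ)))) := by
  have h0 : ∑ i ∈ s, ∑ j ∈ s, f i * f j = 0 := by
    rw [← sum_mul_sum, hf, zero_mul]
  have h1 : ∑ i ∈ s, ∑ j ∈ s, f i * f j *
      (σ⁻¹ • (Real.exp (-((‖y i - y j‖ ^ 2 + ρ ^ 2) * σ)) - Real.exp (-(1 * σ)))) =
      ∑ i ∈ s, ∑ j ∈ s, f i * f j * (σ⁻¹ * Real.exp (-((‖y i - y j‖ ^ 2 + ρ ^ 2) * σ))) -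
        (σ⁻¹ * Real.exp (-(1 * σ))) * ∑ i ∈ s, ∑ j ∈ s, f i * f j := by
    rw [mul_sum, ← sum_sub_distrib]
    apply sum_congr rfl
    intro i _
    rw [mul_sum, ← sum_sub_distrib]
    apply sum_congr rfl
    intro j _
    rw [smul_eq_mul]
    ring
  rw [h1, h0, mul_zero, sub_zero]
  unfold H
  rw [mul_sum, sum_div]
  apply sum_congr rfl
  intro i _
  rw [mul_sum, sum_div]
  apply sum_congr rfl
  intro j _
  have h2 : Real.exp (-((‖y i - y j‖ ^ 2 + ρ ^ 2) * σ)) =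
      Real.exp (-(σ * ρ ^ 2)) * Real.exp (-(σ * ‖y i - y j‖ ^ 2)) := by
    rw [← Real.exp_add]
    congr 1
    ring
  rw [h2, div_eq_mul_inv]
  ring

theorem exp_locInt : LocallyIntegrableOn (fun x : ℝ => Real.exp (-x)) (Set.Ioi 0) := by
  apply ContinuousOn.locallyIntegrableOn _ measurableSet_Ioi
  exact (by fun_prop : Continuous fun x : ℝ => Real.exp (-x)).continuousOn

theorem frullani {c : ℝ} (hc : 0 < c) :
    Tendsto (fun p : ℝ × ℝ => ∫ x in p.1..p.2, x⁻¹ • (Real.exp (-(c * x)) - Real.exp (-(1 * x))))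
      ((𝓝[>] 0) ×ˢ atTop) (𝓝 (-Real.log c)) := by
  have h1 : Tendsto (fun x : ℝ => Real.exp (-x)) (𝓝[>] 0) (𝓝 1) := by
    have h2 : Continuous fun x : ℝ => Real.exp (-x) := by fun_prop
    have h3 := h2.tendsto 0
    simp only [neg_zero, Real.exp_zero] at h3
    exact h3.mono_left nhdsWithin_le_nhds
  have h2 : Tendsto (fun x : ℝ => Real.exp (-x)) atTop (𝓝 0) :=
    Real.tendsto_exp_neg_atTop_nhds_zero
  have h3 := Frullani.tendsto_intervalIntegral exp_locInt hc one_pos h1 h2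
  have h4 : Real.log (1 / c) • ((1 : ℝ) - 0) = -Real.log c := by
    rw [sub_zero, smul_eq_mul, mul_one, one_div, Real.log_inv]
  rw [h4] at h3
  exact h3

/-- (G2) -/
theorem G2 {k : ℕ} {ι : Type} (s : Finset ι) (y : ι → E k) (f : ι → ℝ) {ρ a b : ℝ} (hρ : 0 < ρ)
    (hf : ∑ i ∈ s, f i = 0) (ha : 0 < a) (hab : a ≤ b) :
    ∫ σ in a..b, H s y f ρ σ ≤
      -∑ i ∈ s, ∑ j ∈ s, f i * f j * Real.log (‖y i - y j‖ ^ 2 + ρ ^ 2) := by
  have hb : 0 < b := ha.trans_le hab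
  have h1 : Tendsto (fun p : ℝ × ℝ => ∑ i ∈ s, ∑ j ∈ s, f i * f j *
      ∫ σ in p.1..p.2, σ⁻¹ • (Real.exp (-((‖y i - y j‖ ^ 2 + ρ ^ 2) * σ)) - Real.exp (-(1 * σ))))
      ((𝓝[>] 0) ×ˢ atTop)
      (𝓝 (∑ i ∈ s, ∑ j ∈ s, f i * f j * (-Real.log (‖y i - y j‖ ^ 2 + ρ ^ 2)))) := by
    apply tendsto_finsetSum
    intro i _
    apply tendsto_finsetSum
    intro j _
    exact (frullani (by positivity)).const_mul _
  have h2 : ∑ i ∈ s, ∑ j ∈ s, f i * f j * (-Real.log (‖y i - y j‖ ^ 2 + ρ ^ 2)) =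
      -∑ i ∈ s, ∑ j ∈ s, f i * f j * Real.log (‖y i - y j‖ ^ 2 + ρ ^ 2) := by
    rw [← sum_neg_distrib]
    apply sum_congr rfl
    intro i _
    rw [← sum_neg_distrib]
    apply sum_congr rfl
    intro j _
    ring
  rw [← h2]
  apply ge_of_tendsto h1
  have h3 : ∀ᶠ p : ℝ × ℝ in (𝓝[>] 0) ×ˢ atTop, (0 < p.1 ∧ p.1 < a) ∧ b < p.2 := by
    have h4 : ∀ᶠ x in 𝓝[>] (0 : ℝ), 0 < x ∧ x < a := Ioo_mem_nhdsGT ha
    exact h4.prod_mk (eventually_gt_atTop b)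
  filter_upwards [h3] with p hp
  obtain ⟨⟨hp1, hp2⟩, hp3⟩ := hp
  have hp0 : 0 < p.2 := hb.trans hp3
  have h4 : ∑ i ∈ s, ∑ j ∈ s, f i * f j *
      ∫ σ in p.1..p.2, σ⁻¹ • (Real.exp (-((‖y i - y j‖ ^ 2 + ρ ^ 2) * σ)) - Real.exp (-(1 * σ))) =
      ∫ σ in p.1..p.2, H s y f ρ σ := by
    have hint : ∀ c : ℝ, IntervalIntegrable
        (fun σ : ℝ => σ⁻¹ • (Real.exp (-(c * σ)) - Real.exp (-(1 * σ)))) volume p.1 p.2 := by
      intro c
      apply ContinuousOn.intervalIntegrable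
      have c1 : ContinuousOn (fun σ : ℝ => σ⁻¹) (Set.uIcc p.1 p.2) := by
        apply continuousOn_inv₀.mono
        intro x hx
        exact ((lt_min hp1 hp0).trans_le hx.1).ne'
      have c2 : ContinuousOn (fun σ : ℝ => Real.exp (-(c * σ)) - Real.exp (-(1 * σ)))
          (Set.uIcc p.1 p.2) := by
        apply Continuous.continuousOn
        fun_prop
      exact c1.smul c2
    simp_rw [H_eq s y f ρ _ hf]
    rw [intervalIntegral.integral_finsetSum]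
    · apply sum_congr rfl
      intro i _
      rw [intervalIntegral.integral_finsetSum]
      · apply sum_congr rfl
        intro j _
        rw [intervalIntegral.integral_const_mul]
      · intro j _
        exact (hint _).const_mul _
    · intro i _
      have h5 := IntervalIntegrable.sum (μ := volume) (a := p.1) (b := p.2) s
        (f := fun j σ => f i * f j * (σ⁻¹ • (Real.exp (-((‖y i - y j‖ ^ 2 + ρ ^ 2) * σ)) -
          Real.exp (-(1 * σ))))) fun j _ => (hint _).const_mul _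
      have h6 : (fun σ : ℝ => ∑ j ∈ s, f i * f j *
          (σ⁻¹ • (Real.exp (-((‖y i - y j‖ ^ 2 + ρ ^ 2) * σ)) - Real.exp (-(1 * σ))))) =
          ∑ j ∈ s, fun σ : ℝ => f i * f j *
          (σ⁻¹ • (Real.exp (-((‖y i - y j‖ ^ 2 + ρ ^ 2) * σ)) - Real.exp (-(1 * σ)))) := by
        funext σ
        rw [Finset.sum_apply]
      rw [h6]
      exact h5
  rw [h4]
  have e1 := intervalIntegral.integral_add_adjacent_intervals (H_int s y f ρ hp1 ha)
    (H_int s y f ρ ha hp0)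
  have e2 := intervalIntegral.integral_add_adjacent_intervals (H_int s y f ρ ha hb)
    (H_int s y f ρ hb hp0)
  have e3 : 0 ≤ ∫ σ in p.1..a, H s y f ρ σ := by
    apply intervalIntegral.integral_nonneg hp2.le
    intro x hx
    exact H_nonneg s y f ρ (hp1.trans_le hx.1)
  have e4 : 0 ≤ ∫ σ in b..p.2, H s y f ρ σ := by
    apply intervalIntegral.integral_nonneg hp3.le
    intro x hx
    exact H_nonneg s y f ρ (hb.trans_le hx.1)
  linarith

/-- PDG -/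
theorem pdg {k : ℕ} {ι : Type} (s : Finset ι) (y : ι → E k) (f : ι → ℝ) {ρ : ℝ} (hρ : 0 < ρ)
    (hf : ∑ i ∈ s, f i = 0) :
    ∑ i ∈ s, ∑ j ∈ s, f i * f j * Real.log (‖y i - y j‖ ^ 2 + ρ ^ 2) ≤ 0 := by
  have h := G2 s y f hρ hf one_pos le_rfl
  rw [intervalIntegral.integral_same] at h
  linarith

end PDL_

end Pool.NS
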